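import Mathlib
import Pool.Agent.Work.MP_31dc3b_ag.Own.Main

/-!
# Non-trivial geproci sets contain three collinear points

Every non-trivial `(a, b)`-geproci set in `ℙ³` over `ℂ` contains three distinct points on a
common line; more precisely, a geproci set which lies in no plane and has no three collinear
points consists of four points, it is a `(2, 2)`-grid, and `a = b = 2`.
-/

set_option autoImplicit false

open MvPolynomial
open scoped LinearAlgebra.Projectivization

namespace Pool.Agent.Results.MP_31dc3b_ag.CollinearTriples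

/-- The projective space `ℙ³` over `ℂ`: the points are the lines through the origin of `ℂ⁴`.
For a point `X` and a vector subspace `W` of `ℂ⁴`, `X.submodule ≤ W` says that `X` lies on the
linear subspace of `ℙ³` given by `W`. -/
abbrev P3 : Type := ℙ ℂ (Fin 4 → ℂ)

/-- The projective plane `ℙ²` over `ℂ`. -/
abbrev P2 : Type := ℙ ℂ (Fin 3 → ℂ)

/-- Lines of `ℙ³` are given by the vector subspaces of dimension `2` of `ℂ⁴`. -/
def IsLine (L : Submodule ℂ (Fin 4 → ℂ)) : Prop := Module.finrank ℂ L = 2

/-- Planes of `ℙ³` are given by the vector subspaces of dimension `3` of `ℂ⁴`. -/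
def IsPlane (K : Submodule ℂ (Fin 4 → ℂ)) : Prop := Module.finrank ℂ K = 3

/-- The image `Z_P` of `Z` under the projection from the point `P` to the plane `H`.  The fixed
plane `H`, with its identification `H ≅ ℙ²`, is given by an injective linear map
`κ : ℂ³ → ℂ⁴`: `H` is the image of `κ`, and the point `Y` of `ℙ²` is the point `κ Y` of `H`.
`Z_P` consists of the points `Y` of `H` which lie on the line `PX` for some `X` in `Z`.
(Only used for `P` not in `H` and not in `Z`; then there is one such `Y` for every `X`.) -/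
def projection (κ : (Fin 3 → ℂ) →ₗ[ℂ] (Fin 4 → ℂ)) (P : P3) (Z : Set P3) : Set P2 :=
  {Y | ∃ X ∈ Z, Submodule.map κ Y.submodule ≤ P.submodule ⊔ X.submodule}

/-- The set `S` of points of the plane is the transverse intersection of a plane curve `F = 0`
of degree `a` and a plane curve `G = 0` of degree `b`: `S` is the set of all common points of
the curves, and at every point of `S` the gradients of `F` and `G` are linearly independent,
that is, both curves are smooth there and have different tangent lines. -/
def IsTransverseIntersection (a b : ℕ) (S : Set P2) : Prop :=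
  ∃ F G : MvPolynomial (Fin 3) ℂ, F.IsHomogeneous a ∧ G.IsHomogeneous b ∧
    (∀ Y : P2, Y ∈ S ↔ eval Y.rep F = 0 ∧ eval Y.rep G = 0) ∧
    ∀ Y ∈ S, LinearIndependent ℂ
      ![fun i => eval Y.rep (pderiv i F), fun i => eval Y.rep (pderiv i G)]

/-- The reduced set `S` of points of the plane is a complete intersection of type `(a, b)` in
the sense of ideals: its homogeneous ideal is generated by two forms of degrees `a` and `b`. -/
def IsIdealCompleteIntersection (a b : ℕ) (S : Set P2) : Prop :=
  ∃ F G : MvPolynomial (Fin 3) ℂ, F.IsHomogeneous a ∧ G.IsHomogeneous b ∧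
    ∀ (d : ℕ) (f : MvPolynomial (Fin 3) ℂ), f.IsHomogeneous d →
      ((∀ Y ∈ S, eval Y.rep f = 0) ↔ f ∈ Ideal.span {F, G})

/-- The property `Q` holds for a general point `P` of `ℙ³`: it holds for all points of a
non-empty Zariski open set, the complement of the surface `D = 0` for some form `D ≠ 0` (every
non-empty Zariski open set contains such a complement). -/
def ForGeneral (Q : P3 → Prop) : Prop :=
  ∃ (d : ℕ) (D : MvPolynomial (Fin 4) ℂ), D.IsHomogeneous d ∧ D ≠ 0 ∧
    ∀ P : P3, eval P.rep D ≠ 0 → Q P

/-- `Z` is `(a, b)`-geproci: for a general point `P` (outside `H` and `Z`) the projection `Z_P`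
is the transverse intersection of plane curves of degrees `a` and `b`.  It is also allowed that
`Z_P` is a complete intersection in the sense of ideals instead, so that the theorem covers
both ways to say that the reduced set `Z_P` is a complete intersection of type `(a, b)`. -/
def IsGeproci (κ : (Fin 3 → ℂ) →ₗ[ℂ] (Fin 4 → ℂ)) (a b : ℕ) (Z : Set P3) : Prop :=
  ForGeneral fun P => ¬ P.submodule ≤ LinearMap.range κ → P ∉ Z →
    (IsTransverseIntersection a b (projection κ P Z) ∨
      IsIdealCompleteIntersection a b (projection κ P Z))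

/-- `Z` is degenerate: it lies in a plane. -/
def IsDegenerate (Z : Set P3) : Prop :=
  ∃ K : Submodule ℂ (Fin 4 → ℂ), IsPlane K ∧ ∀ X ∈ Z, X.submodule ≤ K

/-- `Z` is an `(a, b)`-grid: there are `a` pairwise skew lines `A i` and `b` pairwise skew lines
`B j` such that every `A i` meets every `B j` in exactly one point, and `Z` is the set of these
intersection points. -/
def IsGrid (a b : ℕ) (Z : Set P3) : Prop :=
  ∃ (A : Fin a → Submodule ℂ (Fin 4 → ℂ)) (B : Fin b → Submodule ℂ (Fin 4 → ℂ)),
    (∀ i, IsLine (A i)) ∧ (∀ j, IsLine (B j)) ∧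
    (∀ i i', i ≠ i' → A i ⊓ A i' = ⊥) ∧ (∀ j j', j ≠ j' → B j ⊓ B j' = ⊥) ∧
    (∀ i j, ∃! X : P3, X.submodule ≤ A i ∧ X.submodule ≤ B j) ∧
    ∀ X : P3, X ∈ Z ↔ ∃ i j, X.submodule ≤ A i ∧ X.submodule ≤ B j

/-- `Z` contains three distinct points lying on a common line. -/
def HasCollinearTriple (Z : Set P3) : Prop :=
  ∃ X ∈ Z, ∃ Y ∈ Z, ∃ W ∈ Z, X ≠ Y ∧ X ≠ W ∧ Y ≠ W ∧
    ∃ L : Submodule ℂ (Fin 4 → ℂ), IsLine L ∧
      X.submodule ≤ L ∧ Y.submodule ≤ L ∧ W.submodule ≤ L

/-- Let `H` be any plane in `ℙ³` over `ℂ`, given by `κ`, and let `Z` be an `(a, b)`-geproci set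
which is not degenerate.  Then `Z` contains three distinct points lying on a common line, or
`a = b = 2` and `Z` is a `(2, 2)`-grid (four points).  A grid is trivial, so this answers Q1:
every non-trivial `(a, b)`-geproci set contains three distinct points on a common line.  (The
answer is the same whether trivial is read with `(a, b)`-grids only or with all grids, and `a`,
`b` are arbitrary, so that `1 ≤ a ≤ b` is included.) -/
theorem result (κ : (Fin 3 → ℂ) →ₗ[ℂ] (Fin 4 → ℂ)) (hκ : Function.Injective κ) (a b : ℕ)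
    (Z : Set P3) (hfin : Z.Finite) (hgep : IsGeproci κ a b Z) (hnd : ¬ IsDegenerate Z) :
    HasCollinearTriple Z ∨ (a = 2 ∧ b = 2 ∧ Z.ncard = 4 ∧ IsGrid 2 2 Z) := by
  by_cases hnc : HasCollinearTriple Z
  · exact Or.inl hnc
  · refine Or.inr ?_
    obtain ⟨d, D, hD, hD0, hgen⟩ := hgep
    obtain ⟨Z', rfl⟩ : ∃ Z' : Finset P3, (Z' : Set P3) = Z := ⟨hfin.toFinset, hfin.coe_toFinset⟩
    obtain ⟨ha, hb, hcard⟩ := Pool.Agent.Work.MP_31dc3b_ag.Own.core hκ (a := a) (b := b) hD hD0
      hgen hnd (fun x hx y hy w hw hxy hxw hyw hL => hnc ⟨x, hx, y, hy, w, hw, hxy, hxw, hyw, hL⟩)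
    obtain ⟨h4, hgrid⟩ := Pool.Agent.Work.MP_31dc3b_ag.Own.grid hnd hcard
    exact ⟨ha, hb, by rw [Set.ncard_coe_finset]; exact h4, hgrid⟩

end Pool.Agent.Results.MP_31dc3b_ag.CollinearTriples
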